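import Pool.Agent.H71.CW.Tk
import Mathlib.MeasureTheory.Constructions.Polish.Basic
import Mathlib.Logic.Denumerable
import Mathlib.Data.Nat.Nth

/-!
Vaught's conjecture for structures whose Gaifman graph has no subdivision of the infinite complete
graph: coding of general structures by binary structures with three relations and statements.
-/

set_option autoImplicit false

open Set

namespace Pool.Agent.SG

open Pool.Agent.CW (Insep HasTK)

variable {D : Type}

/-- General structures: a label for every tuple; the label `o` means no relation. -/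
abbrev Gst (D : Type) : Type := List ℕ → D

/-- isomorphism of general structures -/
def IsoL (x y : Gst D) (g : Equiv.Perm ℕ) : Prop := ∀ l, y (l.map g) = x l

/-- The Gaifman graph: two points are adjacent if they are in a common related tuple. -/
def Gf (o : D) (x : Gst D) : SimpleGraph ℕ :=
  SimpleGraph.fromRel fun i j => ∃ l, x l ≠ o ∧ i ∈ l ∧ j ∈ l

/-- binary structures -/
abbrev Bst (D : Type) : Type := (ℕ → ℕ → Fin 3) × (ℕ → ℕ × D)

/-- isomorphism of binary structures -/
def IsoB (x y : Bst D) (g : Equiv.Perm ℕ) : Prop :=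
  (∀ i j, y.1 (g i) (g j) = x.1 i j) ∧ ∀ i, y.2 (g i) = x.2 i

/-- vertices of the code: points, tuples, places in tuples -/
abbrev Vx : Type := ℕ ⊕ (List ℕ ⊕ (List ℕ × ℕ))

/-- enumeration of the vertices -/
def ie : Vx ≃ ℕ := Denumerable.eqv Vx

open Classical in
/-- colours of the vertices: 0 points, 1 dummies, 2 related tuples with their labels, p + 3 the
place p of related tuples -/
noncomputable def uV (o : D) (x : Gst D) : Vx → ℕ × D
  | Sum.inl _ => (0, o)
  | Sum.inr (Sum.inl l) => if x l = o then (1, o) else (2, x l)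
  | Sum.inr (Sum.inr q) => if x q.1 ≠ o ∧ q.2 < q.1.length then (q.2 + 3, o) else (1, o)

open Classical in
/-- relations of the vertices: 1 from a tuple to its places, 2 from a place to its point -/
noncomputable def cV (o : D) (x : Gst D) : Vx → Vx → Fin 3
  | Sum.inr (Sum.inl l), Sum.inr (Sum.inr q) =>
      if l = q.1 ∧ x l ≠ o ∧ q.2 < l.length then 1 else 0
  | Sum.inr (Sum.inr q), Sum.inl a => if x q.1 ≠ o ∧ q.1[q.2]? = some a then 2 else 0
  | _, _ => 0

/-- the code of a structure -/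
noncomputable def code (o : D) (x : Gst D) : Bst D :=
  (fun i j => cV o x (ie.symm i) (ie.symm j), fun i => uV o x (ie.symm i))

/-- `a` is the point at the place `p` of the tuple vertex `v` -/
def Pa (z : Bst D) (v p a : ℕ) : Prop := ∃ w, z.1 v w = 1 ∧ (z.2 w).1 = p + 3 ∧ z.1 w a = 2

/-- valid codes -/
structure Vld (o : D) (z : Bst D) : Prop where
  orig : {v | z.2 v = (0, o)}.Infinite
  dum : {v | z.2 v = (1, o)}.Infinite
  col : ∀ v, (z.2 v).1 = 2 ↔ (z.2 v).2 ≠ o
  r1 : ∀ v w, z.1 v w = 1 → (z.2 v).1 = 2 ∧ 3 ≤ (z.2 w).1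
  r2 : ∀ v w, z.1 v w = 2 → 3 ≤ (z.2 v).1 ∧ (z.2 w).1 = 0
  ex1 : ∀ w, 3 ≤ (z.2 w).1 → ∃ v, z.1 v w = 1
  un1 : ∀ v v' w, z.1 v w = 1 → z.1 v' w = 1 → v = v'
  ex2 : ∀ w, 3 ≤ (z.2 w).1 → ∃ a, z.1 w a = 2
  un2 : ∀ w a a', z.1 w a = 2 → z.1 w a' = 2 → a = a'
  len : ∀ v, (z.2 v).1 = 2 → ∃ k, ∀ p, (∃ w, z.1 v w = 1 ∧ (z.2 w).1 = p + 3) ↔ p < k
  un3 : ∀ v w w', z.1 v w = 1 → z.1 v w' = 1 → (z.2 w).1 = (z.2 w').1 → w = w'
  ext : ∀ v v', (z.2 v).1 = 2 → (z.2 v').1 = 2 → (∀ p a, Pa z v p a ↔ Pa z v' p a) → v = v'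

/-- the points of a code -/
noncomputable def en (o : D) (z : Bst D) (i : ℕ) : ℕ := Nat.nth (fun v => z.2 v = (0, o)) i

/-- the tuple vertex `v` stands for the tuple `l` -/
def Tu (o : D) (z : Bst D) (v : ℕ) (l : List ℕ) : Prop :=
  (z.2 v).1 = 2 ∧ ∀ p a, Pa z v p (en o z a) ↔ l[p]? = some a

open Classical in
/-- decoding -/
noncomputable def dcd (o : D) (z : Bst D) : Gst D := fun l =>
  if h : ∃ v, Tu o z v l then (z.2 (Nat.find h)).2 else o

/-- SI: codes of isomorphic structures are isomorphic. -/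
def T_SI (D : Type) : Prop :=
  ∀ (o : D) (x y : Gst D) (g : Equiv.Perm ℕ), IsoL x y g → ∃ h, IsoB (code o x) (code o y) h

/-- SJ: structures with isomorphic codes are isomorphic. -/
def T_SJ (D : Type) : Prop :=
  ∀ (o : D) (x y : Gst D) (h : Equiv.Perm ℕ), IsoB (code o x) (code o y) h → ∃ g, IsoL x y g

/-- SV: the valid codes form a Borel set. -/
def T_SV (D : Type) [MeasurableSpace D] [StandardBorelSpace D] : Prop :=
  ∀ o : D, MeasurableSet {z : Bst D | Vld o z}

/-- SW: codes are valid. -/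
def T_SW (D : Type) : Prop := ∀ (o : D) (x : Gst D), Vld o (code o x)

/-- SX: invariance. -/
def T_SX (D : Type) : Prop :=
  ∀ (o : D) (z w : Bst D) (h : Equiv.Perm ℕ), IsoB z w h → Vld o z → Vld o w

/-- SM: decoding is Borel. -/
def T_SM (D : Type) [MeasurableSpace D] [StandardBorelSpace D] : Prop :=
  ∀ o : D, Measurable (dcd o)

/-- SD: valid codes are codes of their decodings. -/
def T_SD (D : Type) : Prop :=
  ∀ (o : D) (z : Bst D), Vld o z → ∃ h, IsoB (code o (dcd o z)) z h

/-- ST: inseparable sets in the graph of the code. -/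
def T_ST (D : Type) : Prop :=
  ∀ (o : D) (x : Gst D) (B : Set ℕ), B.Infinite →
    Insep (SimpleGraph.fromRel fun i j => (code o x).1 i j ≠ 0) B →
    ∃ B' : Set ℕ, B'.Infinite ∧ Insep (Gf o x) B'

end Pool.Agent.SG
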