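import Pool.Agent.H71.SG.Defs
import Pool.Agent.H71.CW.FinG

/-! The final reduction for structures without infinite clique subdivisions. -/

set_option autoImplicit false

open Set

namespace Pool.Agent.SG

open Pool.Agent.CW (Insep HasTK CWG Rich enc IsoD CntD PerfD)

/-- the structure theorem for decoded structures -/
theorem final_cwr {C : Type} {m : ℕ} [MeasurableSpace C] [StandardBorelSpace C]
    (hG : ∀ c0 : C, CWG C c0)
    (X : Set ((ℕ → ℕ → Fin (m + 1)) × (ℕ → C))) (hX : MeasurableSet X)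
    (hinv : ∀ x ∈ X, ∀ y, IsoD x y → y ∈ X) :
    CntD X ∨ PerfD X ∨ ¬ CntD {x ∈ X | ∃ c0, Rich (enc c0 x)} := by
  classical
  rcases X.eq_empty_or_nonempty with rfl | ⟨x0, hx0⟩
  · exact Or.inl ⟨∅, countable_empty, by simp⟩
  let c0 : C := x0.2 0
  by_cases hP : PerfD X
  · exact Or.inr (Or.inl hP)
  rcases hG c0 (m + 1) (enc c0 '' X) (Pool.Agent.CW.meas_img hX)
    (by rintro _ ⟨x, hx, rfl⟩; exact Pool.Agent.CW.bv_enc c0 x)
    (Pool.Agent.CW.inv_img hinv) with h | h | h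
  · exact absurd (Pool.Agent.CW.perf_dec h) hP
  · exact Or.inl (Pool.Agent.CW.cnt_dec h)
  · refine Or.inr (Or.inr fun hc => h ?_)
    obtain ⟨T, hT1, hT2⟩ := Pool.Agent.CW.cnt_enc (c0 := c0) hc
    refine ⟨T, hT1, ?_⟩
    rintro _ ⟨x, hx, rfl⟩ hR
    exact hT2 _ ⟨x, ⟨hx, c0, hR⟩, rfl⟩

variable {D : Type}

/-- countably many types -/
def CntL (A : Set (Gst D)) : Prop :=
  ∃ E : Set (Gst D), E.Countable ∧ ∀ x ∈ A, ∃ y ∈ E, ∃ g, IsoL x y g

/-- perfectly many types -/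
def PerfL [MeasurableSpace D] (A : Set (Gst D)) : Prop :=
  ∃ F : (ℕ → Bool) → Gst D, Measurable F ∧ (∀ u, F u ∈ A) ∧
    ∀ u v, u ≠ v → ¬ ∃ g, IsoL (F u) (F v) g

lemma IsoB.symm {x y : Bst D} {g : Equiv.Perm ℕ} (h : IsoB x y g) : IsoB y x g.symm := by
  refine ⟨fun i j => ?_, fun i => ?_⟩
  · rw [← h.1, Equiv.apply_symm_apply, Equiv.apply_symm_apply]
  · rw [← h.2, Equiv.apply_symm_apply]

lemma IsoB.trans {x y z : Bst D} {g h : Equiv.Perm ℕ} (h1 : IsoB x y g) (h2 : IsoB y z h) :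
    IsoB x z (g.trans h) := by
  refine ⟨fun i j => ?_, fun i => ?_⟩
  · rw [← h1.1, ← h2.1]; rfl
  · rw [← h1.2, ← h2.2]; rfl

/-- transport of inseparable sets -/
lemma insep_iso {x y : Bst D} {g : Equiv.Perm ℕ} (h : IsoB x y g) {B : Set ℕ}
    (hB : Insep (SimpleGraph.fromRel fun i j => x.1 i j ≠ 0) B) :
    Insep (SimpleGraph.fromRel fun i j => y.1 i j ≠ 0) (g '' B) := by
  classical
  rintro _ ⟨a, ha, rfl⟩ _ ⟨b, hb, rfl⟩ hab S haS hbS
  obtain ⟨w, hw⟩ := hB a ha b hb (fun h => hab (by rw [h])) (S.image g.symm)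
    (fun h => haS (by
      rw [Finset.mem_image] at h
      obtain ⟨s, hs, rfl⟩ := h
      rwa [Equiv.apply_symm_apply]))
    (fun h => hbS (by
      rw [Finset.mem_image] at h
      obtain ⟨s, hs, rfl⟩ := h
      rwa [Equiv.apply_symm_apply]))
  let f : (SimpleGraph.fromRel fun i j => x.1 i j ≠ 0) →g
      (SimpleGraph.fromRel fun i j => y.1 i j ≠ 0) :=
    ⟨g, by
      intro i j hij
      rw [SimpleGraph.fromRel_adj] at hij ⊢
      rw [h.1, h.1]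
      exact ⟨fun h => hij.1 (g.injective h), hij.2⟩⟩
  refine ⟨w.map f, fun v hv => ?_⟩
  rw [SimpleGraph.Walk.support_map, List.mem_map] at hv
  obtain ⟨u, hu, rfl⟩ := hv
  intro hc
  refine hw u hu ?_
  rw [Finset.mem_image]
  exact ⟨g u, hc, g.symm_apply_apply u⟩

/-- **The final reduction.** -/
theorem sg_of [MeasurableSpace D] [StandardBorelSpace D]
    (hG : ∀ c0 : ℕ × D, CWG (ℕ × D) c0) (hTKB : Pool.Agent.CW.T_TKB) (hTKC : Pool.Agent.CW.T_TKC)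
    (hSI : T_SI D) (hSJ : T_SJ D) (hSV : T_SV D) (hSW : T_SW D) (hSX : T_SX D) (hSM : T_SM D)
    (hSD : T_SD D) (hST : T_ST D) (o : D) (X : Set (Gst D)) (hX : MeasurableSet X)
    (hinv : ∀ x ∈ X, ∀ y g, IsoL x y g → y ∈ X) :
    CntL X ∨ PerfL X ∨ ¬ CntL {x ∈ X | HasTK (Gf o x)} := by
  let X' : Set (Bst D) := {z | Vld o z ∧ dcd o z ∈ X}
  have hX' : MeasurableSet X' := (hSV o).inter (hSM o hX)
  -- isomorphic valid codes have isomorphic decodings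
  have hdec : ∀ z w h, Vld o z → IsoB z w h → ∃ g, IsoL (dcd o z) (dcd o w) g := by
    intro z w h hz hzw
    obtain ⟨h1, hh1⟩ := hSD o z hz
    obtain ⟨h2, hh2⟩ := hSD o w (hSX o z w h hzw hz)
    exact hSJ o _ _ _ ((hh1.trans hzw).trans hh2.symm)
  have hinv' : ∀ z ∈ X', ∀ w, IsoD z w → w ∈ X' := by
    rintro z ⟨hz, hz2⟩ w ⟨h, h1, h2⟩
    obtain ⟨g, hg⟩ := hdec z w h hz ⟨h1, h2⟩
    exact ⟨hSX o z w h ⟨h1, h2⟩ hz, hinv _ hz2 _ g hg⟩
  -- decoding of codes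
  have hdc : ∀ x, ∃ g, IsoL (dcd o (code o x)) x g := by
    intro x
    obtain ⟨h, hh⟩ := hSD o (code o x) (hSW o x)
    exact hSJ o _ _ _ hh
  have hsymm : ∀ {x y : Gst D} {g : Equiv.Perm ℕ}, IsoL x y g → IsoL y x g.symm := by
    intro x y g h l
    rw [← h, List.map_map]
    congr 1
    conv_rhs => rw [← List.map_id l]
    congr 1
    funext i
    simp
  have hcode : ∀ x ∈ X, code o x ∈ X' := by
    intro x hx
    obtain ⟨g, hg⟩ := hdc x
    exact ⟨hSW o x, hinv x hx _ _ (hsymm hg)⟩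
  rcases final_cwr hG X' hX' hinv' with h | h | h
  · left
    obtain ⟨E, hE1, hE2⟩ := h
    refine ⟨dcd o '' E, hE1.image _, ?_⟩
    intro x hx
    obtain ⟨w, hw, h, h1, h2⟩ := hE2 _ (hcode x hx)
    refine ⟨dcd o w, ⟨w, hw, rfl⟩, ?_⟩
    have hcw : IsoB (code o x) w h := ⟨h1, h2⟩
    obtain ⟨h', hh'⟩ := hSD o w (hSX o _ _ h hcw (hSW o x))
    exact hSJ o _ _ _ (hcw.trans hh'.symm)
  · right; left
    obtain ⟨F, hF1, hF2, hF3⟩ := h
    refine ⟨fun u => dcd o (F u), (hSM o).comp hF1, fun u => (hF2 u).2, ?_⟩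
    rintro u v huv ⟨g, hg⟩
    obtain ⟨h, hh⟩ := hSI o _ _ g hg
    obtain ⟨h1, hh1⟩ := hSD o (F u) (hF2 u).1
    obtain ⟨h2, hh2⟩ := hSD o (F v) (hF2 v).1
    have h3 := (hh1.symm.trans hh).trans hh2
    exact hF3 u v huv ⟨_, h3.1, h3.2⟩
  · right; right
    intro hc
    apply h
    obtain ⟨E, hE1, hE2⟩ := hc
    refine ⟨code o '' E, hE1.image _, ?_⟩
    rintro z ⟨⟨hz1, hz2⟩, c0, U, hU1, hU2, -⟩
    have hb : Pool.Agent.CW.bn (enc c0 z) = fun i j => (z.1 i j : ℕ) := rfl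
    rw [hb] at hU1 hU2
    obtain ⟨B, hB1, hB2⟩ := hTKB 3 _ U 0 (fun i j => (z.1 i j).2) hU1 hU2
    have hB3 : Insep (SimpleGraph.fromRel fun i j => z.1 i j ≠ 0) B := by
      have he : (SimpleGraph.fromRel fun i j => ((z.1 i j : Fin 3) : ℕ) ≠ 0) =
          SimpleGraph.fromRel fun i j => z.1 i j ≠ 0 := by
        congr 1
        funext i j
        exact propext (not_congr (Fin.val_eq_zero_iff))
      rwa [he] at hB2
    obtain ⟨h', hh'⟩ := hSD o z hz1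
    obtain ⟨B', hB'1, hB'2⟩ := hST o _ _ (hB1.image h'.symm.injective.injOn)
      (insep_iso hh'.symm hB3)
    obtain ⟨y, hy, g, hg⟩ := hE2 (dcd o z) ⟨hz2, hTKC _ B' hB'1 hB'2⟩
    obtain ⟨h2, hh2⟩ := hSI o _ _ g hg
    have h3 := hh'.symm.trans hh2
    exact ⟨code o y, ⟨y, hy, rfl⟩, _, h3.1, h3.2⟩

end Pool.Agent.SG
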