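import Pool.Agent.H71.SG.SW

/-! SD: valid codes are codes of their decodings. -/

set_option autoImplicit false

open Set

namespace Pool.Agent.SG

variable {D : Type}

lemma ext_perm {P Q : ℕ → Prop} (R : ℕ → ℕ → Prop) (hP : {i | ¬ P i}.Infinite)
    (hQ : {i | ¬ Q i}.Infinite) (h1 : ∀ i, P i → ∃ v, R i v) (h1' : ∀ i v, R i v → P i ∧ Q v)
    (h2 : ∀ v, Q v → ∃ i, R i v) (h3 : ∀ i v v', R i v → R i v' → v = v')
    (h4 : ∀ i i' v, R i v → R i' v → i = i') :
    ∃ h : Equiv.Perm ℕ, (∀ i, P i → R i (h i)) ∧ ∀ i, ¬ P i → ¬ Q (h i) := by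
  classical
  choose f hf using h1
  let e1 : {i // P i} ≃ {v // Q v} := Equiv.ofBijective
    (fun i => ⟨f i.1 i.2, (h1' _ _ (hf i.1 i.2)).2⟩) (by
      constructor
      · rintro ⟨i, hi⟩ ⟨j, hj⟩ h
        rw [Subtype.mk.injEq] at h
        have h5 := hf j hj
        have h6 := hf i hi
        rw [h] at h6
        exact Subtype.ext (h4 _ _ _ h6 h5)
      · rintro ⟨v, hv⟩
        obtain ⟨i, hi⟩ := h2 v hv
        have hPi := (h1' i v hi).1
        exact ⟨⟨i, hPi⟩, Subtype.ext (h3 i _ _ (hf i hPi) hi)⟩)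
  have : Infinite {i // ¬ P i} := hP.to_subtype
  have : Infinite {i // ¬ Q i} := hQ.to_subtype
  obtain ⟨e2⟩ : Nonempty ({i // ¬ P i} ≃ {v // ¬ Q v}) := nonempty_equiv_of_countable
  refine ⟨((Equiv.sumCompl P).symm.trans (Equiv.sumCongr e1 e2)).trans (Equiv.sumCompl Q), ?_, ?_⟩
  · intro i hi
    have h5 : (Equiv.sumCompl P).symm i = Sum.inl ⟨i, hi⟩ :=
      Equiv.sumCompl_symm_apply_of_pos hi
    simp only [Equiv.trans_apply, h5, Equiv.sumCongr_apply, Sum.map_inl, Equiv.sumCompl_apply_inl]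
    exact hf i hi
  · intro i hi
    have h5 : (Equiv.sumCompl P).symm i = Sum.inr ⟨i, hi⟩ :=
      Equiv.sumCompl_symm_apply_of_neg hi
    simp only [Equiv.trans_apply, h5, Equiv.sumCongr_apply, Sum.map_inr, Equiv.sumCompl_apply_inr]
    exact (e2 ⟨i, hi⟩).2

section

variable {o : D} {z : Bst D}

lemma en_or (hz : Vld o z) (i : ℕ) : z.2 (en o z i) = (0, o) :=
  Nat.nth_mem_of_infinite (p := fun v => z.2 v = (0, o)) hz.orig i

lemma en_inj (hz : Vld o z) : Function.Injective (en o z) :=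
  Nat.nth_injective (p := fun v => z.2 v = (0, o)) hz.orig

lemma en_surj {a : ℕ} (ha : z.2 a = (0, o)) : ∃ i, en o z i = a := by
  classical
  exact ⟨Nat.count (fun v => z.2 v = (0, o)) a, Nat.nth_count (p := fun v => z.2 v = (0, o)) ha⟩

lemma or_iff (hz : Vld o z) {a : ℕ} : (z.2 a).1 = 0 ↔ z.2 a = (0, o) := by
  constructor
  · intro h
    have h1 : (z.2 a).2 = o := by
      by_contra hc
      rw [(hz.col a).2 hc] at h
      cases h
    exact Prod.ext h h1
  · intro h
    rw [h]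

lemma pa_or (hz : Vld o z) {v p a : ℕ} (h : Pa z v p a) : ∃ i, en o z i = a := by
  obtain ⟨w, -, -, h3⟩ := h
  exact en_surj ((or_iff hz).1 (hz.r2 w a h3).2)

lemma tu_ex (hz : Vld o z) {v : ℕ} (hv : (z.2 v).1 = 2) : ∃ l, Tu o z v l := by
  classical
  obtain ⟨k, hk⟩ := hz.len v hv
  have h1 : ∀ p : Fin k, ∃ i, Pa z v p (en o z i) := by
    intro p
    obtain ⟨w, h1, h2⟩ := (hk p).2 p.2
    obtain ⟨a, ha⟩ := hz.ex2 w (by omega)
    have h3 : Pa z v p a := ⟨w, h1, h2, ha⟩
    obtain ⟨i, rfl⟩ := pa_or hz h3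
    exact ⟨i, h3⟩
  choose f hf using h1
  refine ⟨List.ofFn f, hv, fun p a => ?_⟩
  constructor
  · intro h
    have hp : p < k := by
      obtain ⟨w, h1, h2, -⟩ := h
      exact (hk p).1 ⟨w, h1, h2⟩
    have h2 : f ⟨p, hp⟩ = a := by
      apply en_inj hz
      obtain ⟨w, e1, e2, e3⟩ := hf ⟨p, hp⟩
      obtain ⟨w', f1, f2, f3⟩ := h
      have hw := hz.un3 v w w' e1 f1 (by rw [e2, f2])
      subst hw
      exact hz.un2 w _ _ e3 f3
    rw [List.getElem?_ofFn, dif_pos hp, h2]
  · intro h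
    rw [List.getElem?_ofFn] at h
    split_ifs at h with hp
    rw [Option.some.injEq] at h
    rw [← h]
    exact hf ⟨p, hp⟩

lemma tu_un {v : ℕ} {l l' : List ℕ} (h : Tu o z v l) (h' : Tu o z v l') : l = l' := by
  apply List.ext_getElem?
  intro p
  have key : ∀ a, l[p]? = some a ↔ l'[p]? = some a := fun a => by
    rw [← h.2 p a, ← h'.2 p a]
  rcases h3 : l[p]? with _ | i
  · rcases h4 : l'[p]? with _ | i
    · rfl
    · rw [(key i).2 h4] at h3
      cases h3
  · rw [(key i).1 h3]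

lemma tu_eq (hz : Vld o z) {v v' : ℕ} {l : List ℕ} (h : Tu o z v l) (h' : Tu o z v' l) :
    v = v' := by
  refine hz.ext v v' h.1 h'.1 fun p a => ?_
  constructor
  · intro h1
    obtain ⟨i, rfl⟩ := pa_or hz h1
    exact (h'.2 p i).2 ((h.2 p i).1 h1)
  · intro h1
    obtain ⟨i, rfl⟩ := pa_or hz h1
    exact (h.2 p i).2 ((h'.2 p i).1 h1)

lemma dcd_eq (hz : Vld o z) {v : ℕ} {l : List ℕ} (h : Tu o z v l) : dcd o z l = (z.2 v).2 := by
  classical
  have hex : ∃ v, Tu o z v l := ⟨v, h⟩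
  unfold dcd
  rw [dif_pos hex, tu_eq hz (Nat.find_spec hex) h]

lemma dcd_ne (hz : Vld o z) {l : List ℕ} : dcd o z l ≠ o ↔ ∃ v, Tu o z v l := by
  classical
  constructor
  · intro h
    by_contra hc
    apply h
    unfold dcd
    rw [dif_neg hc]
  · rintro ⟨v, hv⟩
    rw [dcd_eq hz hv]
    exact (hz.col v).1 hv.1

/-- the correspondence -/
def Rl (o : D) (z : Bst D) : Vx → ℕ → Prop
  | Sum.inl i, v => v = en o z i
  | Sum.inr (Sum.inl l), v => Tu o z v l
  | Sum.inr (Sum.inr q), w => ∃ v, Tu o z v q.1 ∧ z.1 v w = 1 ∧ (z.2 w).1 = q.2 + 3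

lemma rl_len (hz : Vld o z) {q : List ℕ × ℕ} {w : ℕ} (h : Rl o z (Sum.inr (Sum.inr q)) w) :
    q.2 < q.1.length := by
  obtain ⟨v, h1, h2, h3⟩ := h
  obtain ⟨a, ha⟩ := hz.ex2 w (by omega)
  have h4 : Pa z v q.2 a := ⟨w, h2, h3, ha⟩
  obtain ⟨i, rfl⟩ := pa_or hz h4
  have h5 := (h1.2 q.2 i).1 h4
  by_contra hc
  rw [List.getElem?_eq_none (not_lt.1 hc)] at h5
  cases h5

lemma rl_u (hz : Vld o z) {q : Vx} {v : ℕ} (h : Rl o z q v) : z.2 v = uV o (dcd o z) q := by
  classical
  rcases q with i | l | q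
  · have h1 : v = en o z i := h
    rw [h1, en_or hz]
    rfl
  · have h1 : Tu o z v l := h
    have h2 : dcd o z l ≠ o := (dcd_ne hz).2 ⟨v, h1⟩
    simp only [uV, if_neg h2]
    rw [dcd_eq hz h1]
    exact Prod.ext h1.1 rfl
  · have hlen := rl_len hz h
    obtain ⟨v', h1, h2, h3⟩ := h
    have h4 : dcd o z q.1 ≠ o := (dcd_ne hz).2 ⟨v', h1⟩
    simp only [uV]
    rw [if_pos ⟨h4, hlen⟩]
    refine Prod.ext h3 ?_
    by_contra hc
    have := (hz.col v).2 hc
    omega

lemma rl_nd (hz : Vld o z) {q : Vx} {v : ℕ} (h : Rl o z q v) : z.2 v ≠ (1, o) := by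
  rcases q with i | l | q
  · have h1 : v = en o z i := h
    rw [h1, en_or hz]
    intro h
    rw [Prod.mk.injEq] at h
    omega
  · have h1 : Tu o z v l := h
    intro h2
    have h3 := h1.1
    rw [h2] at h3
    simp at h3
  · obtain ⟨v', h1, h2, h3⟩ := h
    intro h4
    rw [h4] at h3
    simp at h3

lemma rl_ex (hz : Vld o z) {q : Vx} (h : uV o (dcd o z) q ≠ (1, o)) : ∃ v, Rl o z q v := by
  classical
  rcases q with i | l | q
  · exact ⟨_, rfl⟩
  · simp only [uV] at h
    split_ifs at h with h1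
    · exact absurd rfl h
    · exact (dcd_ne hz).1 h1
  · simp only [uV] at h
    split_ifs at h with h1
    · obtain ⟨v, hv⟩ := (dcd_ne hz).1 h1.1
      obtain ⟨w, e1, e2, -⟩ := (hv.2 q.2 _).2 (List.getElem?_eq_getElem h1.2)
      exact ⟨w, v, hv, e1, e2⟩
    · exact absurd rfl h

lemma rl_sur (hz : Vld o z) {v : ℕ} (h : z.2 v ≠ (1, o)) : ∃ q, Rl o z q v := by
  rcases h1 : (z.2 v).1 with _ | _ | _ | p
  · obtain ⟨i, hi⟩ := en_surj ((or_iff hz).1 h1)
    exact ⟨Sum.inl i, hi.symm⟩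
  · exfalso
    apply h
    refine Prod.ext h1 ?_
    by_contra hc
    have h2 := (hz.col v).2 hc
    omega
  · obtain ⟨l, hl⟩ := tu_ex hz h1
    exact ⟨Sum.inr (Sum.inl l), hl⟩
  · obtain ⟨v', hv'⟩ := hz.ex1 v (by omega)
    obtain ⟨l, hl⟩ := tu_ex hz (hz.r1 _ _ hv').1
    exact ⟨Sum.inr (Sum.inr (l, p)), v', hl, hv', h1⟩

lemma rl_un (hz : Vld o z) {q : Vx} {v v' : ℕ} (h : Rl o z q v) (h' : Rl o z q v') : v = v' := by
  rcases q with i | l | q
  · have h1 : v = en o z i := h
    have h2 : v' = en o z i := h'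
    rw [h1, h2]
  · exact tu_eq hz h h'
  · obtain ⟨w, h1, h2, h3⟩ := h
    obtain ⟨w', h1', h2', h3'⟩ := h'
    have h4 := tu_eq hz h1 h1'
    subst h4
    exact hz.un3 w v v' h2 h2' (by rw [h3, h3'])

lemma rl_inj (hz : Vld o z) {q q' : Vx} {v : ℕ} (h : Rl o z q v) (h' : Rl o z q' v) : q = q' := by
  rcases q with i | l | q <;> rcases q' with i' | l' | q'
  · have h1 : v = en o z i := h
    have h2 : v = en o z i' := h'
    rw [en_inj hz (h1.symm.trans h2)]
  · have h1 : v = en o z i := h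
    have h2 := h'.1
    rw [h1, en_or hz] at h2
    simp at h2
  · have h1 : v = en o z i := h
    obtain ⟨w', h1', h2', h3'⟩ := h'
    rw [h1, en_or hz] at h3'
    simp at h3'
  · have h1 : v = en o z i' := h'
    have h2 := h.1
    rw [h1, en_or hz] at h2
    simp at h2
  · rw [tu_un h h']
  · obtain ⟨w', h1', h2', h3'⟩ := h'
    have h2 := h.1
    omega
  · have h1 : v = en o z i' := h'
    obtain ⟨w', h1', h2', h3'⟩ := h
    rw [h1, en_or hz] at h3'
    simp at h3'
  · obtain ⟨w', h1', h2', h3'⟩ := h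
    have h2 := h'.1
    omega
  · obtain ⟨w, h1, h2, h3⟩ := h
    obtain ⟨w', h1', h2', h3'⟩ := h'
    have h4 := hz.un1 w w' v h2 h2'
    subst h4
    have h5 := tu_un h1 h1'
    have h6 : q.2 = q'.2 := by omega
    rw [Prod.ext h5 h6]

lemma rl_c (hz : Vld o z) {q q' : Vx} {v v' : ℕ} (h : Rl o z q v) (h' : Rl o z q' v') :
    z.1 v v' = cV o (dcd o z) q q' := by
  have hone : z.1 v v' = 1 ↔ cV o (dcd o z) q q' = 1 := by
    rw [cV_one]
    constructor
    · intro h1
      obtain ⟨h2, h3⟩ := hz.r1 v v' h1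
      rw [rl_u hz h] at h2
      rw [rl_u hz h'] at h3
      obtain ⟨l, rfl, hl⟩ := uV_two.1 h2
      obtain ⟨m, p, rfl, hm, hp⟩ := uV_three_le.1 h3
      obtain ⟨w, e1, e2, e3⟩ := h'
      have h4 := hz.un1 v w v' h1 e2
      subst h4
      have h5 : l = m := tu_un h e1
      subst h5
      exact ⟨l, p, rfl, rfl, hl, hp⟩
    · rintro ⟨l, p, rfl, rfl, hl, hp⟩
      obtain ⟨w, e1, e2, e3⟩ := h'
      have h5 := tu_eq hz h e1
      subst h5
      exact e2
  have htwo : z.1 v v' = 2 ↔ cV o (dcd o z) q q' = 2 := by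
    rw [cV_two]
    constructor
    · intro h1
      obtain ⟨h2, h3⟩ := hz.r2 v v' h1
      rw [rl_u hz h] at h2
      rw [rl_u hz h'] at h3
      obtain ⟨m, p, rfl, hm, hp⟩ := uV_three_le.1 h2
      obtain ⟨a, rfl⟩ := uV_zero.1 h3
      obtain ⟨w, e1, e2, e3⟩ := h
      have h4 : v' = en o z a := h'
      refine ⟨m, p, a, rfl, rfl, hm, (e1.2 p a).1 ⟨v, e2, e3, ?_⟩⟩
      rw [← h4]
      exact h1
    · rintro ⟨l, p, a, rfl, rfl, hl, hp⟩
      obtain ⟨w, e1, e2, e3⟩ := h
      have h4 : v' = en o z a := h'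
      obtain ⟨w', f1, f2, f3⟩ := (e1.2 p a).2 hp
      have h5 := hz.un3 w v w' e2 f1 (by rw [e3, f2])
      subst h5
      rw [h4]
      exact f3
  rcases h1 : z.1 v v' with ⟨n, hn⟩
  rcases h2 : cV o (dcd o z) q q' with ⟨n', hn'⟩
  rw [h1, h2] at hone htwo
  rw [Fin.mk.injEq]
  simp only [Fin.ext_iff] at hone htwo
  change n = 1 ↔ n' = 1 at hone
  change n = 2 ↔ n' = 2 at htwo
  omega

theorem pf_SD : T_SD D := by
  intro o z hz
  obtain ⟨h, h1, h2⟩ := ext_perm (P := fun i => uV o (dcd o z) (ie.symm i) ≠ (1, o))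
    (Q := fun v => z.2 v ≠ (1, o)) (fun i v => Rl o z (ie.symm i) v)
    (by
      have h := (pf_SW o (dcd o z)).dum
      refine h.mono ?_
      intro v hv
      rw [mem_ofPred_eq, not_not]
      exact hv)
    (by
      refine hz.dum.mono ?_
      intro v hv
      rw [mem_ofPred_eq, not_not]
      exact hv)
    (fun i hi => rl_ex hz hi)
    (fun i v hv => ⟨by rw [← rl_u hz hv]; exact rl_nd hz hv, rl_nd hz hv⟩)
    (fun v hv => by
      obtain ⟨q, hq⟩ := rl_sur hz hv
      exact ⟨ie q, by rw [Equiv.symm_apply_apply]; exact hq⟩)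
    (fun i v v' => rl_un hz)
    (fun i i' v h h' => ie.symm.injective (rl_inj hz h h'))
  refine ⟨h, ?_, ?_⟩
  · intro i j
    change z.1 (h i) (h j) = cV o (dcd o z) (ie.symm i) (ie.symm j)
    by_cases hi : uV o (dcd o z) (ie.symm i) ≠ (1, o)
    · by_cases hj : uV o (dcd o z) (ie.symm j) ≠ (1, o)
      · exact rl_c hz (h1 i hi) (h1 j hj)
      · have h3 := h2 j hj
        rw [not_not] at h3 hj
        have e1 : z.1 (h i) (h j) = 0 := by
          have f1 := hz.r1 (h i) (h j)
          have f2 := hz.r2 (h i) (h j)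
          rw [h3] at f1 f2
          rcases h4 : z.1 (h i) (h j) with ⟨n, hn⟩
          rw [h4] at f1 f2
          simp only [Fin.ext_iff] at f1 f2 ⊢
          change n = 1 → _ at f1
          change n = 2 → _ at f2
          change n = 0
          have g1 : n ≠ 1 := fun h => by
            have := (f1 h).2
            simp at this
          have g2 : n ≠ 2 := fun h => by
            have := (f2 h).2
            simp at this
          omega
        have e2 : cV o (dcd o z) (ie.symm i) (ie.symm j) = 0 := by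
          have hS := pf_SW o (dcd o z)
          have f1 := hS.r1 i j
          have f2 := hS.r2 i j
          change cV o (dcd o z) (ie.symm i) (ie.symm j) = 1 →
            _ ∧ 3 ≤ (uV o (dcd o z) (ie.symm j)).1 at f1
          change cV o (dcd o z) (ie.symm i) (ie.symm j) = 2 →
            _ ∧ (uV o (dcd o z) (ie.symm j)).1 = 0 at f2
          rw [hj] at f1 f2
          rcases h4 : cV o (dcd o z) (ie.symm i) (ie.symm j) with ⟨n, hn⟩
          rw [h4] at f1 f2
          simp only [Fin.ext_iff] at f1 f2 ⊢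
          change n = 1 → _ at f1
          change n = 2 → _ at f2
          change n = 0
          have g1 : n ≠ 1 := fun h => by
            have := (f1 h).2
            simp at this
          have g2 : n ≠ 2 := fun h => by
            have := (f2 h).2
            simp at this
          omega
        rw [e1, e2]
    · have h3 := h2 i hi
      rw [not_not] at h3 hi
      have e1 : z.1 (h i) (h j) = 0 := by
        have f1 := hz.r1 (h i) (h j)
        have f2 := hz.r2 (h i) (h j)
        rw [h3] at f1 f2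
        rcases h4 : z.1 (h i) (h j) with ⟨n, hn⟩
        rw [h4] at f1 f2
        simp only [Fin.ext_iff] at f1 f2 ⊢
        change n = 1 → _ at f1
        change n = 2 → _ at f2
        change n = 0
        have g1 : n ≠ 1 := fun h => by
          have := (f1 h).1
          simp at this
        have g2 : n ≠ 2 := fun h => by
          have := (f2 h).1
          simp at this
        omega
      have e2 : cV o (dcd o z) (ie.symm i) (ie.symm j) = 0 := by
        have hS := pf_SW o (dcd o z)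
        have f1 := hS.r1 i j
        have f2 := hS.r2 i j
        change cV o (dcd o z) (ie.symm i) (ie.symm j) = 1 →
          (uV o (dcd o z) (ie.symm i)).1 = 2 ∧ _ at f1
        change cV o (dcd o z) (ie.symm i) (ie.symm j) = 2 →
          3 ≤ (uV o (dcd o z) (ie.symm i)).1 ∧ _ at f2
        rw [hi] at f1 f2
        rcases h4 : cV o (dcd o z) (ie.symm i) (ie.symm j) with ⟨n, hn⟩
        rw [h4] at f1 f2
        simp only [Fin.ext_iff] at f1 f2 ⊢
        change n = 1 → _ at f1
        change n = 2 → _ at f2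
        change n = 0
        have g1 : n ≠ 1 := fun h => by
          have := (f1 h).1
          simp at this
        have g2 : n ≠ 2 := fun h => by
          have := (f2 h).1
          simp at this
        omega
      rw [e1, e2]
  · intro i
    change z.2 (h i) = uV o (dcd o z) (ie.symm i)
    by_cases hi : uV o (dcd o z) (ie.symm i) ≠ (1, o)
    · exact rl_u hz (h1 i hi)
    · have h3 := h2 i hi
      rw [not_not] at h3 hi
      rw [h3, hi]

end

end Pool.Agent.SG
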