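import Pool.Agent.H71.SG.SW
import Mathlib.Logic.Equiv.List

/-! SI: codes of isomorphic structures are isomorphic. -/

set_option autoImplicit false

open Set

namespace Pool.Agent.SG

variable {D : Type}

/-- the action on vertices -/
def actV (g : Equiv.Perm ℕ) : Vx ≃ Vx :=
  Equiv.sumCongr g (Equiv.sumCongr (Equiv.listEquivOfEquiv g)
    (Equiv.prodCongr (Equiv.listEquivOfEquiv g) (Equiv.refl ℕ)))

lemma actV_l (g : Equiv.Perm ℕ) (l : List ℕ) :
    actV g (Sum.inr (Sum.inl l)) = Sum.inr (Sum.inl (l.map g)) := rfl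

lemma actV_q (g : Equiv.Perm ℕ) (q : List ℕ × ℕ) :
    actV g (Sum.inr (Sum.inr q)) = Sum.inr (Sum.inr (q.1.map g, q.2)) := rfl

lemma actV_i (g : Equiv.Perm ℕ) (i : ℕ) : actV g (Sum.inl i) = Sum.inl (g i) := rfl

lemma uV_act {o : D} {x y : Gst D} {g : Equiv.Perm ℕ} (h : IsoL x y g) (v : Vx) :
    uV o y (actV g v) = uV o x v := by
  classical
  rcases v with i | l | q
  · rfl
  · rw [actV_l]
    simp only [uV, h l]
  · rw [actV_q]
    simp only [uV, h q.1, List.length_map]

lemma cV_act {o : D} {x y : Gst D} {g : Equiv.Perm ℕ} (h : IsoL x y g) (v w : Vx) :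
    cV o y (actV g v) (actV g w) = cV o x v w := by
  classical
  have hinj : Function.Injective (List.map g) := List.map_injective_iff.2 g.injective
  rcases v with i | l | q <;> rcases w with j | m | r
  · rfl
  · rfl
  · rfl
  · rfl
  · rfl
  · rw [actV_l, actV_q]
    simp only [cV, h l, List.length_map, hinj.eq_iff]
  · rw [actV_q, actV_i]
    have h1 : (q.1.map g)[q.2]? = some (g j) ↔ q.1[q.2]? = some j := by
      rw [List.getElem?_map, Option.map_eq_some_iff]
      constructor
      · rintro ⟨a, ha, hg⟩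
        rw [ha, g.injective hg]
      · intro ha
        exact ⟨j, ha, rfl⟩
    simp only [cV, h q.1, h1]
  · rfl
  · rfl

theorem pf_SI : T_SI D := by
  intro o x y g hg
  refine ⟨(ie.symm.trans (actV g)).trans ie, fun i j => ?_, fun i => ?_⟩
  · obtain ⟨v, rfl⟩ := ie.surjective i
    obtain ⟨w, rfl⟩ := ie.surjective j
    simp only [Equiv.trans_apply, Equiv.symm_apply_apply]
    rw [code_c, code_c, cV_act hg]
  · obtain ⟨v, rfl⟩ := ie.surjective i
    simp only [Equiv.trans_apply, Equiv.symm_apply_apply]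
    rw [code_u, code_u, uV_act hg]

end Pool.Agent.SG
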