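import Pool.Agent.H71.SG.Defs

/-! ST: inseparable sets in the graph of the code. -/

set_option autoImplicit false

open Set

namespace Pool.Agent.SG

open Pool.Agent.CW (Insep HasTK)

variable {D : Type}

/-- points of infinite inseparable sets have infinite degree -/
lemma inf_deg {G : SimpleGraph ℕ} {B : Set ℕ} (hB : B.Infinite) (hI : Insep G B) {a : ℕ}
    (ha : a ∈ B) : {j | G.Adj a j}.Infinite := by
  intro hfin
  obtain ⟨b, hb, hb2⟩ := (hB.diff (hfin.union (finite_singleton a))).nonempty
  rw [mem_union, not_or] at hb2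
  have hab : a ≠ b := fun h => hb2.2 (h ▸ rfl)
  obtain ⟨w, hw⟩ := hI a ha b hb hab hfin.toFinset
    (by rw [Finite.mem_toFinset]; exact fun h => G.loopless.irrefl a h)
    (by rw [Finite.mem_toFinset]; exact hb2.1)
  cases w with
  | nil => exact hab rfl
  | cons h p =>
    refine hw _ (List.mem_cons_of_mem _ p.start_mem_support) ?_
    rw [Finite.mem_toFinset]
    exact h

/-- the points of a vertex -/
def An (o : D) (x : Gst D) : Vx → ℕ → Prop
  | Sum.inl i, a => a = i
  | Sum.inr (Sum.inl l), a => a ∈ l ∧ x l ≠ o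
  | Sum.inr (Sum.inr q), a => a ∈ q.1 ∧ x q.1 ≠ o

lemma an_step {o : D} {x : Gst D} {v w : Vx} (h : cV o x v w ≠ 0 ∨ cV o x w v ≠ 0) {a : ℕ}
    (ha : An o x v a) : ∃ a', An o x w a' ∧ (a' = a ∨ ((Gf o x).Adj a a' ∧ w = Sum.inl a')) := by
  classical
  rcases v with i | l | q <;> rcases w with j | m | r
  · simp [cV] at h
  · simp [cV] at h
  · simp only [cV, ne_eq, not_true_eq_false, ite_eq_right_iff, Fin.reduceEq, imp_false,
      Decidable.not_not, false_or] at h
    obtain ⟨h1, h2⟩ := h
    have ha' : a = i := ha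
    subst ha'
    exact ⟨a, ⟨List.mem_of_getElem? h2, h1⟩, Or.inl rfl⟩
  · simp [cV] at h
  · simp [cV] at h
  · simp only [cV, ne_eq, ite_eq_right_iff, Fin.reduceEq, imp_false, Decidable.not_not,
      not_true_eq_false, or_false] at h
    obtain ⟨h1, h2, h3⟩ := h
    subst h1
    exact ⟨a, ha, Or.inl rfl⟩
  · simp only [cV, ne_eq, ite_eq_right_iff, Fin.reduceEq, imp_false, Decidable.not_not,
      not_true_eq_false, or_false] at h
    obtain ⟨h1, h2⟩ := h
    by_cases hja : j = a
    · exact ⟨j, rfl, Or.inl hja⟩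
    · refine ⟨j, rfl, Or.inr ⟨?_, rfl⟩⟩
      rw [Gf, SimpleGraph.fromRel_adj]
      exact ⟨fun h => hja h.symm, Or.inl ⟨q.1, h1, ha.1, List.mem_of_getElem? h2⟩⟩
  · simp only [cV, ne_eq, ite_eq_right_iff, Fin.reduceEq, imp_false, Decidable.not_not,
      not_true_eq_false, false_or] at h
    obtain ⟨h1, h2, h3⟩ := h
    subst h1
    exact ⟨a, ha, Or.inl rfl⟩
  · simp [cV] at h

lemma an_walk {o : D} {x : Gst D} {S : Finset ℕ} {b : ℕ} :
    ∀ {i j : ℕ} (w : (SimpleGraph.fromRel fun i j => (code o x).1 i j ≠ 0).Walk i j),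
      (∀ v ∈ w.support, v ∉ S.image fun s => ie (Sum.inl s)) → j = ie (Sum.inl b) →
      ∀ a, An o x (ie.symm i) a → a ∉ S →
        ∃ w' : (Gf o x).Walk a b, ∀ v ∈ w'.support, v ∉ S := by
  intro i j w
  induction w with
  | nil =>
    rintro - rfl a ha haS
    rw [Equiv.symm_apply_apply] at ha
    have ha' : a = b := ha
    subst ha'
    exact ⟨SimpleGraph.Walk.nil, by simpa using haS⟩
  | @cons i k j h p ih =>
    intro hw hj a ha haS
    rw [SimpleGraph.fromRel_adj] at h
    obtain ⟨a', h1, h2⟩ := an_step (v := ie.symm i) (w := ie.symm k) h.2 ha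
    have hp : ∀ v ∈ p.support, v ∉ S.image fun s => ie (Sum.inl s) := fun v hv =>
      hw v (List.mem_cons_of_mem _ hv)
    rcases h2 with rfl | ⟨h2, h3⟩
    · exact ih hp hj a' h1 haS
    · have ha'S : a' ∉ S := by
        intro hc
        refine hp k p.start_mem_support ?_
        rw [Finset.mem_image]
        exact ⟨a', hc, by rw [← h3, Equiv.apply_symm_apply]⟩
      obtain ⟨w', hw'⟩ := ih hp hj a' h1 ha'S
      refine ⟨SimpleGraph.Walk.cons h2 w', ?_⟩
      intro v hv
      rw [SimpleGraph.Walk.support_cons, List.mem_cons] at hv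
      rcases hv with rfl | hv
      · exact haS
      · exact hw' v hv

lemma fin_nbr {o : D} {x : Gst D} (v : Vx) (hv : ∀ i, v ≠ Sum.inl i) :
    {w : Vx | cV o x v w ≠ 0 ∨ cV o x w v ≠ 0}.Finite := by
  classical
  rcases v with i | l | q
  · exact absurd rfl (hv i)
  · refine ((List.range l.length).toFinset.finite_toSet.image
      fun p => (Sum.inr (Sum.inr (l, p)) : Vx)).subset ?_
    rintro (j | m | r) h
    · simp [cV] at h
    · simp [cV] at h
    · simp only [cV, ne_eq, ite_eq_right_iff, Fin.reduceEq, imp_false, Decidable.not_not,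
        not_true_eq_false, or_false, mem_ofPred_eq] at h
      obtain ⟨h1, h2, h3⟩ := h
      refine ⟨r.2, ?_, ?_⟩
      · simpa using h3
      · rw [h1]
  · refine ((q.1.toFinset.finite_toSet.image fun a => (Sum.inl a : Vx)).union
      (finite_singleton (Sum.inr (Sum.inl q.1) : Vx))).subset ?_
    rintro (j | m | r) h
    · left
      simp only [cV, ne_eq, ite_eq_right_iff, Fin.reduceEq, imp_false, Decidable.not_not,
        not_true_eq_false, or_false, mem_ofPred_eq] at h
      refine ⟨j, ?_, rfl⟩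
      rw [Finset.mem_coe, List.mem_toFinset]
      exact List.mem_of_getElem? h.2
    · right
      simp only [cV, ne_eq, ite_eq_right_iff, Fin.reduceEq, imp_false, Decidable.not_not,
        not_true_eq_false, false_or, mem_ofPred_eq] at h
      rw [mem_singleton_iff, h.1]
    · simp [cV] at h

theorem pf_ST : T_ST D := by
  intro o x B hB hI
  have hor : ∀ a ∈ B, ∃ i, a = ie (Sum.inl i) := by
    intro a ha
    by_contra hcon
    push Not at hcon
    refine inf_deg hB hI ha ?_
    have h1 := fin_nbr (o := o) (x := x) (ie.symm a) (fun i hi => hcon i (by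
      rw [← hi, Equiv.apply_symm_apply]))
    refine (h1.image ie).subset ?_
    intro j hj
    rw [mem_ofPred_eq, SimpleGraph.fromRel_adj] at hj
    exact ⟨ie.symm j, hj.2, ie.apply_symm_apply j⟩
  refine ⟨{i | ie (Sum.inl i) ∈ B}, ?_, ?_⟩
  · intro hfin
    refine hB ((hfin.image fun i => ie (Sum.inl i)).subset ?_)
    intro a ha
    obtain ⟨i, rfl⟩ := hor a ha
    exact ⟨i, ha, rfl⟩
  · intro a ha b hb hab S haS hbS
    have hinj : Function.Injective fun s : ℕ => ie (Sum.inl s) := fun s t h =>
      Sum.inl_injective (ie.injective h)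
    have himg : ∀ c, c ∉ S → ie (Sum.inl c) ∉ S.image fun s => ie (Sum.inl s) := by
      intro c hc h
      rw [Finset.mem_image] at h
      obtain ⟨d, hd, hd2⟩ := h
      rw [hinj hd2] at hd
      exact hc hd
    obtain ⟨w, hw⟩ := hI _ ha _ hb (fun h => hab (hinj h)) (S.image fun s => ie (Sum.inl s))
      (himg a haS) (himg b hbS)
    exact an_walk w hw rfl a (by rw [Equiv.symm_apply_apply]; rfl) haS

end Pool.Agent.SG
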