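import Pool.Agent.H71.SG.Defs

/-! SW: codes are valid. -/

set_option autoImplicit false

open Set

namespace Pool.Agent.SG

variable {D : Type}

lemma code_c (o : D) (x : Gst D) (v w : Vx) : (code o x).1 (ie v) (ie w) = cV o x v w := by
  unfold code
  simp only [Equiv.symm_apply_apply]

lemma code_u (o : D) (x : Gst D) (v : Vx) : (code o x).2 (ie v) = uV o x v := by
  unfold code
  simp only [Equiv.symm_apply_apply]

lemma cV_one {o : D} {x : Gst D} {v w : Vx} : cV o x v w = 1 ↔
    ∃ l p, v = Sum.inr (Sum.inl l) ∧ w = Sum.inr (Sum.inr (l, p)) ∧ x l ≠ o ∧ p < l.length := by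
  classical
  constructor
  · intro h
    rcases v with i | l | q <;> rcases w with j | m | r
    · simp [cV] at h
    · simp [cV] at h
    · simp [cV] at h
    · simp [cV] at h
    · simp [cV] at h
    · simp only [cV] at h
      split_ifs at h with h1
      · obtain ⟨h1, h2, h3⟩ := h1
        exact ⟨l, r.2, rfl, by rw [h1], h2, h3⟩
      · simp at h
    · simp only [cV] at h
      split_ifs at h with h1 <;> simp at h
    · simp [cV] at h
    · simp [cV] at h
  · rintro ⟨l, p, rfl, rfl, h1, h2⟩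
    simp [cV, h1, h2]

lemma cV_two {o : D} {x : Gst D} {v w : Vx} : cV o x v w = 2 ↔
    ∃ l p a, v = Sum.inr (Sum.inr (l, p)) ∧ w = Sum.inl a ∧ x l ≠ o ∧ l[p]? = some a := by
  classical
  constructor
  · intro h
    rcases v with i | l | q <;> rcases w with j | m | r
    · simp [cV] at h
    · simp [cV] at h
    · simp [cV] at h
    · simp [cV] at h
    · simp [cV] at h
    · simp only [cV] at h
      split_ifs at h with h1 <;> simp at h
    · simp only [cV] at h
      split_ifs at h with h1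
      · exact ⟨q.1, q.2, j, rfl, rfl, h1.1, h1.2⟩
      · simp at h
    · simp [cV] at h
    · simp [cV] at h
  · rintro ⟨l, p, a, rfl, rfl, h1, h2⟩
    simp [cV, h1, h2]

lemma uV_two {o : D} {x : Gst D} {v : Vx} : (uV o x v).1 = 2 ↔
    ∃ l, v = Sum.inr (Sum.inl l) ∧ x l ≠ o := by
  classical
  constructor
  · intro h
    rcases v with i | l | q
    · simp [uV] at h
    · simp only [uV] at h
      split_ifs at h with h1
      · simp at h
      · exact ⟨l, rfl, h1⟩
    · simp only [uV] at h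
      split_ifs at h with h1
      · simp at h
      · simp at h
  · rintro ⟨l, rfl, h1⟩
    simp [uV, h1]

lemma uV_three {o : D} {x : Gst D} {v : Vx} {p : ℕ} : (uV o x v).1 = p + 3 ↔
    ∃ l, v = Sum.inr (Sum.inr (l, p)) ∧ x l ≠ o ∧ p < l.length := by
  classical
  constructor
  · intro h
    rcases v with i | l | q
    · simp [uV] at h
    · simp only [uV] at h
      split_ifs at h with h1
      · simp at h
      · simp at h
    · simp only [uV] at h
      split_ifs at h with h1
      · simp only [Nat.add_right_cancel_iff] at h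
        obtain ⟨l, p'⟩ := q
        simp only at h h1
        subst h
        exact ⟨l, rfl, h1⟩
      · simp at h
  · rintro ⟨l, rfl, h1⟩
    simp [uV, h1]

lemma uV_three_le {o : D} {x : Gst D} {v : Vx} : 3 ≤ (uV o x v).1 ↔
    ∃ l p, v = Sum.inr (Sum.inr (l, p)) ∧ x l ≠ o ∧ p < l.length := by
  constructor
  · intro h
    obtain ⟨p, hp⟩ := Nat.exists_eq_add_of_le' h
    obtain ⟨l, h1, h2⟩ := uV_three.1 hp
    exact ⟨l, p, h1, h2⟩
  · rintro ⟨l, p, h⟩
    rw [uV_three.2 ⟨l, h⟩]
    omega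

lemma uV_zero {o : D} {x : Gst D} {v : Vx} : (uV o x v).1 = 0 ↔ ∃ i, v = Sum.inl i := by
  classical
  constructor
  · intro h
    rcases v with i | l | q
    · exact ⟨i, rfl⟩
    · simp only [uV] at h
      split_ifs at h with h1 <;> simp at h
    · simp only [uV] at h
      split_ifs at h with h1 <;> simp at h
  · rintro ⟨i, rfl⟩
    rfl

lemma uV_snd {o : D} {x : Gst D} {v : Vx} : (uV o x v).2 ≠ o ↔ (uV o x v).1 = 2 := by
  classical
  rcases v with i | l | q
  · simp [uV]
  · simp only [uV]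
    split_ifs with h1 <;> simp [h1]
  · simp only [uV]
    split_ifs with h1 <;> simp

lemma pa_code {o : D} {x : Gst D} {l : List ℕ} (hl : x l ≠ o) {p : ℕ} {a : ℕ} :
    Pa (code o x) (ie (Sum.inr (Sum.inl l))) p a ↔ ∃ i, a = ie (Sum.inl i) ∧ l[p]? = some i := by
  unfold Pa
  constructor
  · rintro ⟨w, h1, h2, h3⟩
    obtain ⟨w, rfl⟩ := ie.surjective w
    obtain ⟨a, rfl⟩ := ie.surjective a
    rw [code_c] at h1 h3
    rw [code_u] at h2
    obtain ⟨m, q, e1, e2, e3, e4⟩ := cV_one.1 h1
    obtain ⟨m', q', i, f1, f2, f3, f4⟩ := cV_two.1 h3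
    obtain ⟨m'', g1, g2⟩ := uV_three.1 h2
    have h5 : l = m := by
      have := Sum.inr_injective e1
      exact Sum.inl_injective this
    subst h5
    rw [e2] at f1 g1
    have h6 := Sum.inr_injective (Sum.inr_injective f1)
    have h7 := Sum.inr_injective (Sum.inr_injective g1)
    rw [Prod.mk.injEq] at h6 h7
    refine ⟨i, by rw [f2], ?_⟩
    rw [h6.1, ← h7.2, h6.2]
    exact f4
  · rintro ⟨i, rfl, h⟩
    have hp : p < l.length := by
      by_contra hc
      rw [List.getElem?_eq_none (not_lt.1 hc)] at h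
      cases h
    refine ⟨ie (Sum.inr (Sum.inr (l, p))), ?_, ?_, ?_⟩
    · rw [code_c]
      exact cV_one.2 ⟨l, p, rfl, rfl, hl, hp⟩
    · rw [code_u]
      exact uV_three.2 ⟨l, rfl, hl, hp⟩
    · rw [code_c]
      exact cV_two.2 ⟨l, p, i, rfl, rfl, hl, h⟩

theorem pf_SW : T_SW D := by
  intro o x
  constructor
  · refine (infinite_range_of_injective (f := fun i : ℕ => ie (Sum.inl i))
      fun i j h => Sum.inl_injective (ie.injective h)).mono ?_
    rintro _ ⟨i, rfl⟩
    rw [mem_ofPred_eq, code_u]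
    rfl
  · refine (infinite_range_of_injective (f := fun i : ℕ => ie (Sum.inr (Sum.inr ([], i))))
      fun i j h => ?_).mono ?_
    · have := Sum.inr_injective (Sum.inr_injective (ie.injective h))
      rw [Prod.mk.injEq] at this
      exact this.2
    · rintro _ ⟨i, rfl⟩
      rw [mem_ofPred_eq, code_u]
      simp [uV]
  · intro v
    obtain ⟨v, rfl⟩ := ie.surjective v
    rw [code_u]
    exact uV_snd.symm
  · intro v w h
    obtain ⟨v, rfl⟩ := ie.surjective v
    obtain ⟨w, rfl⟩ := ie.surjective w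
    rw [code_c] at h
    rw [code_u, code_u]
    obtain ⟨l, p, e1, e2, e3, e4⟩ := cV_one.1 h
    exact ⟨uV_two.2 ⟨l, e1, e3⟩, uV_three_le.2 ⟨l, p, e2, e3, e4⟩⟩
  · intro v w h
    obtain ⟨v, rfl⟩ := ie.surjective v
    obtain ⟨w, rfl⟩ := ie.surjective w
    rw [code_c] at h
    rw [code_u, code_u]
    obtain ⟨l, p, a, e1, e2, e3, e4⟩ := cV_two.1 h
    have hp : p < l.length := by
      by_contra hc
      rw [List.getElem?_eq_none (not_lt.1 hc)] at e4
      cases e4
    exact ⟨uV_three_le.2 ⟨l, p, e1, e3, hp⟩, uV_zero.2 ⟨a, e2⟩⟩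
  · intro w h
    obtain ⟨w, rfl⟩ := ie.surjective w
    rw [code_u] at h
    obtain ⟨l, p, e1, e2, e3⟩ := uV_three_le.1 h
    exact ⟨ie (Sum.inr (Sum.inl l)), by rw [code_c]; exact cV_one.2 ⟨l, p, rfl, e1, e2, e3⟩⟩
  · intro v v' w h h'
    obtain ⟨v, rfl⟩ := ie.surjective v
    obtain ⟨v', rfl⟩ := ie.surjective v'
    obtain ⟨w, rfl⟩ := ie.surjective w
    rw [code_c] at h h'
    obtain ⟨l, p, e1, e2, e3, e4⟩ := cV_one.1 h
    obtain ⟨l', p', e1', e2', e3', e4'⟩ := cV_one.1 h'
    rw [e2] at e2'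
    have h1 := Sum.inr_injective (Sum.inr_injective e2')
    rw [Prod.mk.injEq] at h1
    rw [e1, e1', h1.1]
  · intro w h
    obtain ⟨w, rfl⟩ := ie.surjective w
    rw [code_u] at h
    obtain ⟨l, p, e1, e2, e3⟩ := uV_three_le.1 h
    exact ⟨ie (Sum.inl l[p]), by
      rw [code_c]
      exact cV_two.2 ⟨l, p, l[p], e1, rfl, e2, List.getElem?_eq_getElem e3⟩⟩
  · intro w a a' h h'
    obtain ⟨a, rfl⟩ := ie.surjective a
    obtain ⟨a', rfl⟩ := ie.surjective a'
    obtain ⟨w, rfl⟩ := ie.surjective w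
    rw [code_c] at h h'
    obtain ⟨l, p, i, e1, e2, e3, e4⟩ := cV_two.1 h
    obtain ⟨l', p', i', e1', e2', e3', e4'⟩ := cV_two.1 h'
    rw [e1] at e1'
    have h1 := Sum.inr_injective (Sum.inr_injective e1')
    rw [Prod.mk.injEq] at h1
    rw [← h1.1, ← h1.2, e4, Option.some.injEq] at e4'
    rw [e2, e2', e4']
  · intro v h
    obtain ⟨v, rfl⟩ := ie.surjective v
    rw [code_u] at h
    obtain ⟨l, rfl, hl⟩ := uV_two.1 h
    refine ⟨l.length, fun p => ?_⟩
    constructor
    · rintro ⟨w, h1, h2⟩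
      obtain ⟨w, rfl⟩ := ie.surjective w
      rw [code_c] at h1
      rw [code_u] at h2
      obtain ⟨m, q, e1, e2, e3, e4⟩ := cV_one.1 h1
      obtain ⟨m', f1, f2, f3⟩ := uV_three.1 h2
      rw [e2] at f1
      have h3 := Sum.inr_injective (Sum.inr_injective f1)
      rw [Prod.mk.injEq] at h3
      have h4 : l = m := Sum.inl_injective (Sum.inr_injective e1)
      rw [h4, h3.1]
      exact f3
    · intro hp
      exact ⟨ie (Sum.inr (Sum.inr (l, p))), by rw [code_c]; exact cV_one.2 ⟨l, p, rfl, rfl, hl, hp⟩,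
        by rw [code_u]; exact uV_three.2 ⟨l, rfl, hl, hp⟩⟩
  · intro v w w' h h' heq
    obtain ⟨v, rfl⟩ := ie.surjective v
    obtain ⟨w, rfl⟩ := ie.surjective w
    obtain ⟨w', rfl⟩ := ie.surjective w'
    rw [code_c] at h h'
    rw [code_u, code_u] at heq
    obtain ⟨l, p, e1, e2, e3, e4⟩ := cV_one.1 h
    obtain ⟨l', p', e1', e2', e3', e4'⟩ := cV_one.1 h'
    rw [e1] at e1'
    have h1 : l = l' := Sum.inl_injective (Sum.inr_injective e1')
    subst h1
    have h2 : (uV o x w).1 = p + 3 := uV_three.2 ⟨l, e2, e3, e4⟩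
    have h3 : (uV o x w').1 = p' + 3 := uV_three.2 ⟨l, e2', e3, e4'⟩
    rw [h2, h3] at heq
    have h4 : p = p' := by omega
    rw [e2, e2', h4]
  · intro v v' h h' heq
    obtain ⟨v, rfl⟩ := ie.surjective v
    obtain ⟨v', rfl⟩ := ie.surjective v'
    rw [code_u] at h h'
    obtain ⟨l, rfl, hl⟩ := uV_two.1 h
    obtain ⟨l', rfl, hl'⟩ := uV_two.1 h'
    have h1 : l = l' := by
      apply List.ext_getElem?
      intro p
      have key : ∀ i, l[p]? = some i ↔ l'[p]? = some i := by
        intro i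
        have h2 := heq p (ie (Sum.inl i))
        rw [pa_code hl, pa_code hl'] at h2
        constructor
        · intro h3
          obtain ⟨j, e1, e2⟩ := h2.1 ⟨i, rfl, h3⟩
          rw [Sum.inl_injective (ie.injective e1)]
          exact e2
        · intro h3
          obtain ⟨j, e1, e2⟩ := h2.2 ⟨i, rfl, h3⟩
          rw [Sum.inl_injective (ie.injective e1)]
          exact e2
      rcases h3 : l[p]? with _ | i
      · rcases h4 : l'[p]? with _ | i
        · rfl
        · rw [(key i).2 h4] at h3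
          cases h3
      · rw [(key i).1 h3]
    rw [h1]

end Pool.Agent.SG
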