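import Pool.Agent.H71.SG.Defs

/-! SX: invariance of validity. -/

set_option autoImplicit false

open Set

namespace Pool.Agent.SG

variable {D : Type}

lemma pa_iso {z w : Bst D} {h : Equiv.Perm ℕ} (hh : IsoB z w h) (v p a : ℕ) :
    Pa w (h v) p (h a) ↔ Pa z v p a := by
  unfold Pa
  constructor
  · rintro ⟨u, h1, h2, h3⟩
    obtain ⟨u, rfl⟩ := h.surjective u
    rw [hh.1] at h1 h3
    rw [hh.2] at h2
    exact ⟨u, h1, h2, h3⟩
  · rintro ⟨u, h1, h2, h3⟩
    exact ⟨h u, by rw [hh.1]; exact h1, by rw [hh.2]; exact h2, by rw [hh.1]; exact h3⟩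

theorem pf_SX : T_SX D := by
  intro o z w h hh hz
  have himg : ∀ c : ℕ × D, {v | w.2 v = c} = h '' {v | z.2 v = c} := by
    intro c
    ext v
    constructor
    · intro hv
      refine ⟨h.symm v, ?_, h.apply_symm_apply v⟩
      rw [mem_ofPred_eq, ← hh.2, h.apply_symm_apply]
      exact hv
    · rintro ⟨u, hu, rfl⟩
      rw [mem_ofPred_eq, hh.2]
      exact hu
  constructor
  · rw [himg]
    exact hz.orig.image h.injective.injOn
  · rw [himg]
    exact hz.dum.image h.injective.injOn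
  · intro v
    obtain ⟨v, rfl⟩ := h.surjective v
    rw [hh.2]
    exact hz.col v
  · intro v u hvu
    obtain ⟨v, rfl⟩ := h.surjective v
    obtain ⟨u, rfl⟩ := h.surjective u
    rw [hh.1] at hvu
    rw [hh.2, hh.2]
    exact hz.r1 v u hvu
  · intro v u hvu
    obtain ⟨v, rfl⟩ := h.surjective v
    obtain ⟨u, rfl⟩ := h.surjective u
    rw [hh.1] at hvu
    rw [hh.2, hh.2]
    exact hz.r2 v u hvu
  · intro u hu
    obtain ⟨u, rfl⟩ := h.surjective u
    rw [hh.2] at hu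
    obtain ⟨v, hv⟩ := hz.ex1 u hu
    exact ⟨h v, by rw [hh.1]; exact hv⟩
  · intro v v' u h1 h2
    obtain ⟨v, rfl⟩ := h.surjective v
    obtain ⟨v', rfl⟩ := h.surjective v'
    obtain ⟨u, rfl⟩ := h.surjective u
    rw [hh.1] at h1 h2
    rw [hz.un1 v v' u h1 h2]
  · intro u hu
    obtain ⟨u, rfl⟩ := h.surjective u
    rw [hh.2] at hu
    obtain ⟨v, hv⟩ := hz.ex2 u hu
    exact ⟨h v, by rw [hh.1]; exact hv⟩
  · intro v a a' h1 h2
    obtain ⟨v, rfl⟩ := h.surjective v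
    obtain ⟨a, rfl⟩ := h.surjective a
    obtain ⟨a', rfl⟩ := h.surjective a'
    rw [hh.1] at h1 h2
    rw [hz.un2 v a a' h1 h2]
  · intro v hv
    obtain ⟨v, rfl⟩ := h.surjective v
    rw [hh.2] at hv
    obtain ⟨k, hk⟩ := hz.len v hv
    refine ⟨k, fun p => ?_⟩
    rw [← hk p]
    constructor
    · rintro ⟨u, h1, h2⟩
      obtain ⟨u, rfl⟩ := h.surjective u
      rw [hh.1] at h1
      rw [hh.2] at h2
      exact ⟨u, h1, h2⟩
    · rintro ⟨u, h1, h2⟩
      exact ⟨h u, by rw [hh.1]; exact h1, by rw [hh.2]; exact h2⟩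
  · intro v u u' h1 h2 h3
    obtain ⟨v, rfl⟩ := h.surjective v
    obtain ⟨u, rfl⟩ := h.surjective u
    obtain ⟨u', rfl⟩ := h.surjective u'
    rw [hh.1] at h1 h2
    rw [hh.2, hh.2] at h3
    rw [hz.un3 v u u' h1 h2 h3]
  · intro v v' h1 h2 h3
    obtain ⟨v, rfl⟩ := h.surjective v
    obtain ⟨v', rfl⟩ := h.surjective v'
    rw [hh.2] at h1 h2
    rw [hz.ext v v' h1 h2 fun p a => ?_]
    rw [← pa_iso hh, ← pa_iso hh]
    exact h3 p (h a)

end Pool.Agent.SG
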